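import Mathlib

/-!
# Rigidity of a framework from a nonzero minor of the rigidity matrix (one graph)
-/

namespace Pool.Agent.R171.Octagon

open Finset Matrix

/-- squared distance -/
def sq (a b : ℝ × ℝ) : ℝ := (a.1 - b.1) ^ 2 + (a.2 - b.2) ^ 2

/-- first endpoints of the edges other than `{0, 1}` -/
def ea : Fin 12 → Fin 8 := ![1, 2, 3, 4, 5, 6, 7, 1, 1, 0, 3, 4]

/-- second endpoints of the edges other than `{0, 1}` -/
def eb : Fin 12 → Fin 8 := ![2, 3, 4, 5, 6, 7, 0, 4, 6, 3, 6, 7]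

/-- vertex of an unknown -/
def vt : Fin 12 → Fin 8 := ![2, 2, 3, 3, 4, 4, 5, 5, 6, 6, 7, 7]

/-- coordinate of an unknown -/
def cd : Fin 12 → Fin 2 := ![0, 1, 0, 1, 0, 1, 0, 1, 0, 1, 0, 1]

section ring

variable {R S : Type*} [CommRing R] [CommRing S]

/-- normalized coordinates: vertex `0` at the origin, vertex `1` on the axis -/
def yf (x z : Fin 8 → R) (v : Fin 8) (c : Fin 2) : R :=
  if c = 0 then (x v - x 0) * (x 1 - x 0) + (z v - z 0) * (z 1 - z 0)
  else (z v - z 0) * (x 1 - x 0) - (x v - x 0) * (z 1 - z 0)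

/-- sign of a vertex in an edge -/
def sg (R : Type*) [CommRing R] (e j : Fin 12) : R :=
  (if vt j = ea e then 1 else 0) - (if vt j = eb e then 1 else 0)

/-- the rigidity matrix -/
def rm (y : Fin 8 → Fin 2 → R) : Matrix (Fin 12) (Fin 12) R :=
  fun e j => sg R e j * (y (ea e) (cd j) - y (eb e) (cd j))

theorem map_sg (φ : R →+* S) (e j : Fin 12) : φ (sg R e j) = sg S e j := by
  unfold sg
  split_ifs <;> simp

theorem map_yf (φ : R →+* S) (x z : Fin 8 → R) (v : Fin 8) (c : Fin 2) :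
    φ (yf x z v c) = yf (fun v => φ (x v)) (fun v => φ (z v)) v c := by
  unfold yf
  split_ifs <;> simp

theorem map_rm (φ : R →+* S) (x z : Fin 8 → R) :
    φ (det (rm (yf x z))) = det (rm (yf (fun v => φ (x v)) (fun v => φ (z v)))) := by
  rw [RingHom.map_det]
  congr 1
  ext e j
  show φ (rm (yf x z) e j) = _
  unfold rm
  rw [map_mul, map_sub, map_sg, map_yf, map_yf]

end ring

/-- sample configuration -/
def x0 : Fin 8 → ℤ := ![0, 1, 0, 1, -1, 2, 0, 0]
/-- sample configuration -/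
def z0 : Fin 8 → ℤ := ![0, 0, -2, 1, 0, -2, -1, 1]

/-- four times the inverse -/
def N0 : Matrix (Fin 12) (Fin 12) ℤ :=
  ![![-12, 8, 0, 0, 0, 8, -16, 0, 16, 8, -16, 0],
  ![4, -4, 0, 0, 0, -4, 8, 0, -8, -4, 8, 0],
  ![0, 0, 0, 0, 0, 2, -4, 0, 4, 8, -4, 0],
  ![0, 0, 0, 0, 0, -2, 4, 0, -4, -4, 4, 0],
  ![0, 0, 0, 0, 0, 0, 0, -2, 0, 0, 0, 0],
  ![0, 0, -4, 0, 0, 2, -4, 4, 4, 12, -4, 0],
  ![0, 0, -8, -4, 8, 16, -32, 14, -8, 24, -8, 0],
  ![0, 0, -16, -8, 12, 26, -52, 28, -8, 48, -16, 0],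
  ![0, 0, 0, 0, 0, 2, -4, 0, -4, 0, 0, 0],
  ![0, 0, 0, 0, 0, -2, 4, 0, 0, 0, 0, 0],
  ![0, 0, -4, 0, 0, 2, -8, 2, 4, 12, -4, 4],
  ![0, 0, 0, 0, 0, 0, 4, 0, 0, 0, 0, 0]]

theorem mulN0 : ∀ i j : Fin 12, (∑ k, rm (yf x0 z0) i k * N0 k j) = if i = j then 4 else 0 := by
  decide +kernel

theorem det0 : det (rm (yf x0 z0)) ≠ 0 := by
  intro h
  have h1 : rm (yf x0 z0) * N0 = (4 : ℤ) • (1 : Matrix (Fin 12) (Fin 12) ℤ) := by
    ext i j
    rw [mul_apply, mulN0 i j, Matrix.smul_apply, one_apply]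
    split_ifs <;> simp
  have h2 := congrArg det h1
  rw [det_mul, h, zero_mul, det_smul, det_one] at h2
  norm_num at h2

/-- the generic determinant -/
noncomputable def DD : MvPolynomial (Fin 8 ⊕ Fin 8) ℚ :=
  det (rm (yf (fun v => MvPolynomial.X (Sum.inl v)) (fun v => MvPolynomial.X (Sum.inr v))))

theorem DD_ne : DD ≠ 0 := by
  intro h
  have h1 := congrArg (MvPolynomial.eval
    (Sum.elim (fun v => (x0 v : ℚ)) (fun v => (z0 v : ℚ)))) h
  rw [map_zero] at h1
  unfold DD at h1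
  rw [map_rm] at h1
  simp only [MvPolynomial.eval_X, Sum.elim_inl, Sum.elim_inr] at h1
  have h2 := map_rm (Int.castRingHom ℚ) x0 z0
  simp only [Int.coe_castRingHom] at h2
  rw [h1] at h2
  exact det0 (by exact_mod_cast h2)

theorem det_generic {p : Fin 8 → ℝ × ℝ}
    (hp : AlgebraicIndependent ℚ (Sum.elim (fun v => (p v).1) (fun v => (p v).2))) :
    det (rm (yf (fun v => (p v).1) (fun v => (p v).2))) ≠ 0 := by
  intro h
  apply DD_ne
  apply hp.eq_zero_of_aeval_eq_zero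
  unfold DD
  have h1 := map_rm ((MvPolynomial.aeval (Sum.elim (fun v => (p v).1) (fun v => (p v).2)) :
    MvPolynomial (Fin 8 ⊕ Fin 8) ℚ →ₐ[ℚ] ℝ) : MvPolynomial (Fin 8 ⊕ Fin 8) ℚ →+* ℝ)
    (fun v => MvPolynomial.X (Sum.inl v)) (fun v => MvPolynomial.X (Sum.inr v))
  simp only [RingHom.coe_coe, MvPolynomial.aeval_X, Sum.elim_inl, Sum.elim_inr] at h1
  rw [h1]
  exact h

/-- normalized coordinates of a configuration -/
def yp (q : Fin 8 → ℝ × ℝ) : Fin 8 → Fin 2 → ℝ := yf (fun v => (q v).1) (fun v => (q v).2)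

theorem yp_sq (q : Fin 8 → ℝ × ℝ) (u w : Fin 8) :
    (yp q u 0 - yp q w 0) ^ 2 + (yp q u 1 - yp q w 1) ^ 2 = sq (q u) (q w) * sq (q 0) (q 1) := by
  simp only [yp, yf, sq, if_true, one_ne_zero, if_false]
  ring

theorem yp_zero (q : Fin 8 → ℝ × ℝ) (c : Fin 2) : yp q 0 c = 0 := by
  simp [yp, yf]

theorem yp_one0 (q : Fin 8 → ℝ × ℝ) : yp q 1 0 = sq (q 0) (q 1) := by
  simp only [yp, yf, sq, if_true]
  ring

theorem yp_one1 (q : Fin 8 → ℝ × ℝ) : yp q 1 1 = 0 := by
  simp only [yp, yf, one_ne_zero, if_false]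
  ring

theorem sum12 (f : Fin 8 → Fin 2 → ℝ) (h0 : ∀ c, f 0 c = 0) (h1 : ∀ c, f 1 c = 0) :
    ∑ j, f (vt j) (cd j) = ∑ v, (f v 0 + f v 1) := by
  have e : (univ : Finset (Fin 12)) = {0, 1, 2, 3, 4, 5, 6, 7, 8, 9, 10, 11} := by decide
  rw [e, Fin.sum_univ_eight, h0, h0, h1, h1]
  rw [sum_insert (by decide), sum_insert (by decide), sum_insert (by decide),
    sum_insert (by decide), sum_insert (by decide), sum_insert (by decide),
    sum_insert (by decide), sum_insert (by decide), sum_insert (by decide),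
    sum_insert (by decide), sum_insert (by decide), sum_singleton]
  show f 2 0 + (f 2 1 + (f 3 0 + (f 3 1 + (f 4 0 + (f 4 1 + (f 5 0 + (f 5 1 + (f 6 0 + (f 6 1 +
    (f 7 0 + f 7 1)))))))))) = _
  ring

/-- the rows of the rigidity matrix -/
theorem row (y : Fin 8 → Fin 2 → ℝ) (d : Fin 8 → Fin 2 → ℝ) (h0 : ∀ c, d 0 c = 0)
    (h1 : ∀ c, d 1 c = 0) (e : Fin 12) :
    ((rm y) *ᵥ (fun j => d (vt j) (cd j))) e =
      (y (ea e) 0 - y (eb e) 0) * (d (ea e) 0 - d (eb e) 0) +
      (y (ea e) 1 - y (eb e) 1) * (d (ea e) 1 - d (eb e) 1) := by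
  have h2 := sum12 (fun (v : Fin 8) (c : Fin 2) =>
        ((if v = ea e then 1 else 0) - (if v = eb e then 1 else 0)) *
        (y (ea e) c - y (eb e) c) * d v c) (by intro c; simp [h0]) (by intro c; simp [h1])
  refine Eq.trans ?_ (h2.trans ?_)
  · rfl
  have h3 : ∀ v : Fin 8,
      ((if v = ea e then (1 : ℝ) else 0) - (if v = eb e then 1 else 0)) *
        (y (ea e) 0 - y (eb e) 0) * d v 0 +
      ((if v = ea e then 1 else 0) - (if v = eb e then 1 else 0)) *
        (y (ea e) 1 - y (eb e) 1) * d v 1 =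
      (if v = ea e then ((y (ea e) 0 - y (eb e) 0) * d v 0 +
        (y (ea e) 1 - y (eb e) 1) * d v 1) else 0) -
      (if v = eb e then ((y (ea e) 0 - y (eb e) 0) * d v 0 +
        (y (ea e) 1 - y (eb e) 1) * d v 1) else 0) := by
    intro v
    split_ifs <;> ring
  simp only [h3]
  rw [sum_sub_distrib, sum_ite_eq' univ (ea e), sum_ite_eq' univ (eb e), if_pos (mem_univ _),
    if_pos (mem_univ _)]
  ring

/-- difference of the normalized coordinates -/
def df (q q' : Fin 8 → ℝ × ℝ) (j : Fin 12) : ℝ := yp q' (vt j) (cd j) - yp q (vt j) (cd j)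

theorem idx_exists : ∀ v : Fin 8, ∀ c : Fin 2, v = 0 ∨ v = 1 ∨ ∃ j, vt j = v ∧ cd j = c := by
  decide

/-- two configurations with the same edge lengths whose normalized coordinates are close
coincide -/
theorem close {q : Fin 8 → ℝ × ℝ} (hdet : det (rm (yp q)) ≠ 0) :
    ∃ C : ℝ, 0 < C ∧ ∀ q' : Fin 8 → ℝ × ℝ, sq (q' 0) (q' 1) = sq (q 0) (q 1) →
      (∀ e, sq (q' (ea e)) (q' (eb e)) = sq (q (ea e)) (q (eb e))) →
      ‖df q q'‖ = 0 ∨ C ≤ ‖df q q'‖ := by
  set A := rm (yp q) with hA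
  set K := ∑ i, ∑ e, |A.adjugate i e| with hK
  have hK0 : 0 ≤ K := sum_nonneg fun i _ => sum_nonneg fun e _ => abs_nonneg _
  refine ⟨|det A| / (4 * K + 1), div_pos (abs_pos.2 hdet) (by linarith), ?_⟩
  intro q' h01 hedge
  set m := ‖df q q'‖ with hm
  have hm0 : 0 ≤ m := norm_nonneg _
  let d : Fin 8 → Fin 2 → ℝ := fun v c => yp q' v c - yp q v c
  have hd0 : ∀ c, d 0 c = 0 := by
    intro c
    simp only [d, yp_zero, sub_self]
  have hd1 : ∀ c, d 1 c = 0 := by
    intro c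
    fin_cases c
    · show yp q' 1 0 - yp q 1 0 = 0
      rw [yp_one0, yp_one0, h01, sub_self]
    · show yp q' 1 1 - yp q 1 1 = 0
      rw [yp_one1, yp_one1, sub_self]
  have hdm : ∀ v c, |d v c| ≤ m := by
    intro v c
    rcases idx_exists v c with h | h | ⟨j, h1, h2⟩
    · rw [h, hd0, abs_zero]
      exact hm0
    · rw [h, hd1, abs_zero]
      exact hm0
    · rw [← h1, ← h2]
      exact norm_le_pi_norm (df q q') j
  have hrow : ∀ e, |(A *ᵥ (df q q')) e| ≤ 4 * m ^ 2 := by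
    intro e
    have h1 := row (yp q) d hd0 hd1 e
    have h2 : (A *ᵥ (df q q')) e = (A *ᵥ (fun j => d (vt j) (cd j))) e := rfl
    rw [h2, hA, h1]
    have h3 := yp_sq q (ea e) (eb e)
    have h4 := yp_sq q' (ea e) (eb e)
    rw [h01, hedge e, ← h3] at h4
    have e0 : ∀ v c, yp q' v c = yp q v c + d v c := by
      intro v c
      simp only [d]
      ring
    rw [e0, e0, e0, e0] at h4
    have h5 : (yp q (ea e) 0 - yp q (eb e) 0) * (d (ea e) 0 - d (eb e) 0) +
      (yp q (ea e) 1 - yp q (eb e) 1) * (d (ea e) 1 - d (eb e) 1) =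
      -(((d (ea e) 0 - d (eb e) 0) ^ 2 + (d (ea e) 1 - d (eb e) 1) ^ 2) / 2) := by
      linarith
    rw [h5, abs_neg, abs_of_nonneg (by positivity)]
    have h6 : ∀ c, (d (ea e) c - d (eb e) c) ^ 2 ≤ (2 * m) ^ 2 := by
      intro c
      apply sq_le_sq'
      · have h7 := abs_le.1 (hdm (ea e) c)
        have h8 := abs_le.1 (hdm (eb e) c)
        linarith [h7.1, h8.2]
      · have h7 := abs_le.1 (hdm (ea e) c)
        have h8 := abs_le.1 (hdm (eb e) c)
        linarith [h7.2, h8.1]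
    have h7 := h6 0
    have h8 := h6 1
    linarith
  have hadj : ∀ j, det A * df q q' j = ∑ e, A.adjugate j e * (A *ᵥ (df q q')) e := by
    intro j
    have h1 : A.adjugate *ᵥ (A *ᵥ (df q q')) = det A • (df q q') := by
      rw [mulVec_mulVec, adjugate_mul, smul_mulVec, one_mulVec]
    have h2 := congrFun h1 j
    rw [Pi.smul_apply, smul_eq_mul] at h2
    rw [← h2]
    rfl
  have hbound : ∀ j, |det A| * |df q q' j| ≤ 4 * K * m ^ 2 := by
    intro j
    rw [← abs_mul, hadj j]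
    calc |∑ e, A.adjugate j e * (A *ᵥ (df q q')) e|
        ≤ ∑ e, |A.adjugate j e * (A *ᵥ (df q q')) e| := abs_sum_le_sum_abs _ _
      _ ≤ ∑ e, |A.adjugate j e| * (4 * m ^ 2) := by
          apply sum_le_sum
          intro e _
          rw [abs_mul]
          exact mul_le_mul_of_nonneg_left (hrow e) (abs_nonneg _)
      _ = (∑ e, |A.adjugate j e|) * (4 * m ^ 2) := by rw [sum_mul]
      _ ≤ K * (4 * m ^ 2) := by
          apply mul_le_mul_of_nonneg_right _ (by positivity)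
          exact single_le_sum (f := fun i => ∑ e, |A.adjugate i e|)
            (fun i _ => sum_nonneg fun e _ => abs_nonneg _) (mem_univ j)
      _ = 4 * K * m ^ 2 := by ring
  have hdet' : 0 < |det A| := abs_pos.2 hdet
  have h1 : |det A| * m ≤ 4 * K * m ^ 2 := by
    have h2 : m ≤ 4 * K * m ^ 2 / |det A| := by
      apply (pi_norm_le_iff_of_nonneg (by positivity)).2
      intro j
      rw [le_div_iff₀ hdet', mul_comm]
      exact hbound j
    rwa [le_div_iff₀ hdet', mul_comm] at h2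
  rcases hm0.lt_or_eq with h2 | h2
  · right
    rw [div_le_iff₀ (by linarith)]
    have h3 : |det A| ≤ 4 * K * m := by
      have : |det A| * m ≤ (4 * K * m) * m := by
        calc |det A| * m ≤ 4 * K * m ^ 2 := h1
          _ = (4 * K * m) * m := by ring
      exact le_of_mul_le_mul_right this h2
    linarith
  · exact Or.inl h2.symm

theorem yp_cont {P : ℝ → Fin 8 → ℝ × ℝ} {s : Set ℝ} (hP : ContinuousOn P s) (v : Fin 8)
    (c : Fin 2) : ContinuousOn (fun t => yp (P t) v c) s := by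
  have h : ∀ v, ContinuousOn (fun t => P t v) s := fun v => continuousOn_pi.1 hP v
  have hx : ∀ v, ContinuousOn (fun t => (P t v).1) s := fun v => continuous_fst.comp_continuousOn (h v)
  have hz : ∀ v, ContinuousOn (fun t => (P t v).2) s := fun v => continuous_snd.comp_continuousOn (h v)
  unfold yp yf
  split_ifs
  · exact (((hx v).sub (hx 0)).mul ((hx 1).sub (hx 0))).add
      (((hz v).sub (hz 0)).mul ((hz 1).sub (hz 0)))
  · exact (((hz v).sub (hz 0)).mul ((hx 1).sub (hx 0))).sub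
      (((hx v).sub (hx 0)).mul ((hz 1).sub (hz 0)))

/-- the framework is rigid if the minor does not vanish -/
theorem rigid {p : Fin 8 → ℝ × ℝ} (hdet : det (rm (yp p)) ≠ 0) {P : ℝ → Fin 8 → ℝ × ℝ}
    (hc : ContinuousOn P (Set.Icc 0 1)) (h0 : P 0 = p)
    (h01 : ∀ t ∈ Set.Icc (0 : ℝ) 1, sq (P t 0) (P t 1) = sq (p 0) (p 1))
    (he : ∀ t ∈ Set.Icc (0 : ℝ) 1, ∀ e, sq (P t (ea e)) (P t (eb e)) = sq (p (ea e)) (p (eb e))) :
    ∀ t ∈ Set.Icc (0 : ℝ) 1, ∀ u w, sq (P t u) (P t w) = sq (p u) (p w) := by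
  obtain ⟨C, hC, hclose⟩ := close hdet
  have hcont : ContinuousOn (fun t => ‖df p (P t)‖) (Set.Icc 0 1) := by
    apply ContinuousOn.norm
    apply continuousOn_pi.2
    intro j
    unfold df
    exact (yp_cont hc _ _).sub continuousOn_const
  have hL : sq (p 0) (p 1) ≠ 0 := by
    intro h
    apply hdet
    unfold sq at h
    have h1 : ((p 0).1 - (p 1).1) ^ 2 = 0 := by
      have := sq_nonneg ((p 0).1 - (p 1).1)
      have := sq_nonneg ((p 0).2 - (p 1).2)
      linarith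
    have h2 : ((p 0).2 - (p 1).2) ^ 2 = 0 := by
      have := sq_nonneg ((p 0).1 - (p 1).1)
      have := sq_nonneg ((p 0).2 - (p 1).2)
      linarith
    rw [sq_eq_zero_iff] at h1 h2
    have h3 : (p 1).1 - (p 0).1 = 0 := by linarith
    have h4 : (p 1).2 - (p 0).2 = 0 := by linarith
    have h5 : rm (yp p) = 0 := by
      ext e j
      show sg ℝ e j * (yp p (ea e) (cd j) - yp p (eb e) (cd j)) = 0
      have : ∀ v c, yp p v c = 0 := by
        intro v c
        unfold yp yf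
        rw [h3, h4]
        split_ifs <;> ring
      rw [this, this]
      ring
    rw [h5]
    exact det_zero
  intro t ht u w
  have hz : ‖df p (P t)‖ = 0 := by
    rcases hclose (P t) (h01 t ht) (he t ht) with h | h
    · exact h
    · exfalso
      have h1 : ContinuousOn (fun t => ‖df p (P t)‖) (Set.Icc 0 t) :=
        hcont.mono (Set.Icc_subset_Icc_right ht.2)
      have h2 := intermediate_value_Icc ht.1 h1
      have h3 : ‖df p (P 0)‖ = 0 := by
        rw [h0, norm_eq_zero]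
        funext j
        unfold df
        simp
      have h4 : C / 2 ∈ Set.Icc (‖df p (P 0)‖) (‖df p (P t)‖) := by
        rw [h3]
        constructor <;> linarith
      obtain ⟨t', ht', h5⟩ := h2 h4
      have ht'' : t' ∈ Set.Icc (0 : ℝ) 1 := ⟨ht'.1, ht'.2.trans ht.2⟩
      have h5' : ‖df p (P t')‖ = C / 2 := h5
      rcases hclose (P t') (h01 t' ht'') (he t' ht'') with h6 | h6
      · rw [h5'] at h6
        linarith
      · rw [h5'] at h6
        linarith
  rw [norm_eq_zero] at hz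
  have hy : ∀ v c, yp (P t) v c = yp p v c := by
    intro v c
    rcases idx_exists v c with h | h | ⟨j, h1, h2⟩
    · rw [h, yp_zero, yp_zero]
    · rw [h]
      fin_cases c
      · show yp (P t) 1 0 = yp p 1 0
        rw [yp_one0, yp_one0, h01 t ht]
      · show yp (P t) 1 1 = yp p 1 1
        rw [yp_one1, yp_one1]
    · have h3 := congrFun hz j
      unfold df at h3
      rw [h1, h2] at h3
      exact sub_eq_zero.1 h3
  have h1 := yp_sq (P t) u w
  have h2 := yp_sq p u w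
  rw [hy, hy, hy, hy, h2, h01 t ht] at h1
  exact (mul_right_cancel₀ hL h1).symm

end Pool.Agent.R171.Octagon
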